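import Pool.Agent.Helper35.MS.StH

set_option autoImplicit false

namespace Helper5.MS

open Helper35.MS Helper35.PI Helper35.PI2 Helper32.CL
open scoped ContDiff Manifold Topology ENNReal BigOperators
open MeasureTheory Set Filter

private theorem IS_quarter : IS (1 / 4) = Ici (0 : ℝ) := by
  ext t
  constructor
  · exact fun h => h.1
  · intro h
    refine ⟨h, ?_⟩
    unfold sgT
    have := Real.exp_pos (-4 * t)
    linarith

theorem hINF (hDAT : StDAT) (hIN3 : StIN3) (hCNV : StCNV) (hCT0 : StCT0) (hHSQ : StHSQ) : StINF := by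
  intro N F hS hP
  have hM : IsManifold (𝓡 2) ∞ S2 := by
    have h : IsManifold (𝓡 2) ω S2 := inferInstance
    exact h.of_le le_top
  have hS' : SMCF 2 (IS (1 / 4)) F := by
    rw [IS_quarter]
    exact hS
  obtain ⟨c, χ, δ, hdat, hlow⟩ := hDAT N F (1 / 4) (by norm_num) le_rfl hS' hP
  obtain ⟨C, ts, hC, hts, hdec⟩ := hIN3 N S2 (FEs F) c χ δ hdat hlow
  have hδ : 0 < δ := hdat.pi.δ0
  obtain ⟨-, hcnv⟩ := hCNV N S2 F (1 / 4) (by norm_num) le_rfl hS'
  obtain ⟨hfro, hcts⟩ := hCT0 N S2 (Ici 0) F hS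
  obtain ⟨-, -, hcA, -⟩ := hcts (uniqueDiffOn_Ici 0)
  -- relations at one time
  have hrel : ∀ t : ℝ, 0 ≤ t → ∀ q : S2, hS2 (n := 2) F q t = AA (n := 2) F q t - 2 ∧
      0 ≤ hS2 (n := 2) F q t ∧ ‖HS (n := 2) F q t‖ ^ 2 ≤ 2 * hS2 (n := 2) F q t := by
    intro t ht q
    obtain ⟨h1, h2⟩ := hfro t ht
    obtain ⟨-, -, -, h3, h4, h5⟩ := hHSQ N S2 univ (fun q (_ : ℝ) => F q t) h1 0 (mem_univ _)
      (fun q => hS.sph q t ht) q
    obtain ⟨-, e2, -, e4, e5⟩ := h2 q 0
    rw [e5, e2] at h3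
    rw [e5] at h4
    rw [e4, e5] at h5
    exact ⟨h3, h4, h5⟩
  -- decay for large times
  have htm : ∀ t : ℝ, tmS (sgT t) = t := by
    intro t
    unfold tmS sgT
    have e : 1 - 4 * ((1 - Real.exp (-4 * t)) / 4) = Real.exp (-4 * t) := by ring
    rw [e, Real.log_exp]
    ring
  have hbig : ∀ t : ℝ, 0 ≤ t → ts ≤ sgT t → ∀ q : S2,
      hS2 (n := 2) F q t ≤ 2 * C * Real.exp (-4 * t * δ) := by
    intro t ht htt q
    have hexp := Real.exp_pos (-4 * t)
    have h1 : sgT t ∈ Ico (0 : ℝ) (1 / 4) := by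
      refine ⟨le_trans (by linarith [hts.1]) htt, ?_⟩
      unfold sgT
      linarith
    obtain ⟨-, -, h2⟩ := hcnv (sgT t) h1
    obtain ⟨-, -, h3, -⟩ := h2 q
    have h4 := hdec (sgT t) ⟨htt, h1.2⟩ q
    have e1 : YF (FEs F) q (sgT t) + thF 2 (FEs F) q (sgT t) = 2 * AA (n := 2) (FEs F) q (sgT t) := by
      unfold YF thF
      ring
    have e2 : 1 - 4 * sgT t = Real.exp (-4 * t) := by
      unfold sgT
      ring
    have e3 : 1 / 4 - sgT t = Real.exp (-4 * t) / 4 := by
      unfold sgT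
      ring
    rw [e1, h3, htm, e2, e3] at h4
    have e4 : Real.exp (-4 * t) / 4 * (2 * (AA (n := 2) F q t / Real.exp (-4 * t))) - 1 =
        hS2 (n := 2) F q t / 2 := by
      rw [(hrel t ht q).1]
      field_simp
      ring
    rw [e4] at h4
    have h5 : (Real.exp (-4 * t) / 4) ^ δ ≤ Real.exp (-4 * t * δ) := by
      rw [Real.exp_mul (-4 * t) δ]
      apply Real.rpow_le_rpow (by positivity) _ hδ.le
      linarith
    have h6 := mul_le_mul_of_nonneg_left h5 hC.le
    linarith
  -- bounded times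
  have hcomp : IsCompact ((univ : Set S2) ×ˢ Icc (0 : ℝ) (tmS ts)) := isCompact_univ.prod isCompact_Icc
  obtain ⟨B, hB⟩ := hcomp.exists_bound_of_continuousOn
    (f := fun z : S2 × ℝ => AA (n := 2) F z.1 z.2)
    (ContinuousOn.mono hcA (prod_mono le_rfl Icc_subset_Ici_self))
  have hsmall : ∀ t : ℝ, 0 ≤ t → sgT t < ts → ∀ q : S2,
      hS2 (n := 2) F q t ≤ |B| * Real.exp (4 * tmS ts * δ) * Real.exp (-4 * t * δ) := by
    intro t ht htt q
    have h1 : t ≤ tmS ts := by
      have h2 : 1 - 4 * ts < Real.exp (-4 * t) := by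
        unfold sgT at htt
        linarith
      have h3 : 0 < 1 - 4 * ts := by linarith [hts.2]
      have h4 := Real.log_lt_log h3 h2
      rw [Real.log_exp] at h4
      unfold tmS
      linarith
    have h2 := hB (q, t) ⟨mem_univ _, ht, h1⟩
    simp only [Real.norm_eq_abs] at h2
    have h3 : AA (n := 2) F q t ≤ |B| := (le_abs_self _).trans (h2.trans (le_abs_self B))
    have h4 : (1 : ℝ) ≤ Real.exp (4 * tmS ts * δ) * Real.exp (-4 * t * δ) := by
      rw [← Real.exp_add]
      apply Real.one_le_exp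
      nlinarith [mul_le_mul_of_nonneg_right h1 hδ.le]
    have h5 := mul_le_mul_of_nonneg_left h4 (abs_nonneg B)
    rw [(hrel t ht q).1]
    linarith
  set C1 : ℝ := max (2 * C) (|B| * Real.exp (4 * tmS ts * δ)) with hC1
  have hC1' : 0 < C1 := lt_of_lt_of_le (by positivity) (le_max_left _ _)
  have hall : ∀ t : ℝ, 0 ≤ t → ∀ q : S2, hS2 (n := 2) F q t ≤ C1 * Real.exp (-4 * t * δ) := by
    intro t ht q
    rcases le_or_gt ts (sgT t) with h | h
    · refine (hbig t ht h q).trans ?_
      exact mul_le_mul_of_nonneg_right (le_max_left _ _) (Real.exp_pos _).le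
    · refine (hsmall t ht h q).trans ?_
      exact mul_le_mul_of_nonneg_right (le_max_right _ _) (Real.exp_pos _).le
  -- the speed
  set K : ℝ := Real.sqrt (2 * C1) with hK
  have hK0 : 0 ≤ K := Real.sqrt_nonneg _
  have hspeed : ∀ t : ℝ, 0 ≤ t → ∀ q : S2, ‖HS (n := 2) F q t‖ ≤ K * Real.exp (-(2 * δ) * t) := by
    intro t ht q
    obtain ⟨-, -, h1⟩ := hrel t ht q
    have h2 := hall t ht q
    apply abs_le_of_sq_le_sq' _ (by positivity) |>.2
    rw [mul_pow, hK, Real.sq_sqrt (by positivity), ← Real.exp_nat_mul]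
    have e : ((2 : ℕ) : ℝ) * (-(2 * δ) * t) = -4 * t * δ := by
      push_cast
      ring
    rw [e]
    linarith
  set L : ℝ := K / (2 * δ) with hL
  have hL0 : 0 ≤ L := by positivity
  have hdist : ∀ q : S2, ∀ t s : ℝ, 0 ≤ t → t ≤ s → ‖F q s - F q t‖ ≤ L * Real.exp (-(2 * δ) * t) := by
    intro q t s ht hts'
    have hcont : ContinuousOn (fun x => F q x - F q t) (Icc t s) := by
      intro x hx
      have h1 := (hS.flow q x (ht.trans hx.1)).continuousWithinAt
      exact (h1.mono (Icc_subset_Ici_self.trans (Ici_subset_Ici.2 ht))).sub continuousWithinAt_const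
    have hder : ∀ x ∈ Ico t s, HasDerivWithinAt (fun x => F q x - F q t) (HS (n := 2) F q x) (Ici x) x := by
      intro x hx
      have h1 := (hS.flow q x (ht.trans hx.1)).mono (Ici_subset_Ici.2 (ht.trans hx.1))
      exact h1.sub_const _
    have hBd : ∀ x : ℝ, HasDerivAt (fun x => L * (Real.exp (-(2 * δ) * t) - Real.exp (-(2 * δ) * x)))
        (K * Real.exp (-(2 * δ) * x)) x := by
      intro x
      have h1 : HasDerivAt (fun x : ℝ => Real.exp (-(2 * δ) * x)) (Real.exp (-(2 * δ) * x) * (-(2 * δ))) x := by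
        have h2 : HasDerivAt (fun x : ℝ => -(2 * δ) * x) (-(2 * δ)) x := by
          simpa using (hasDerivAt_id x).const_mul (-(2 * δ))
        exact h2.exp
      have h3 := (h1.const_sub (Real.exp (-(2 * δ) * t))).const_mul L
      have e : L * -(Real.exp (-(2 * δ) * x) * (-(2 * δ))) = K * Real.exp (-(2 * δ) * x) := by
        rw [hL]
        field_simp
      rw [← e]
      exact h3
    have h1 := image_norm_le_of_norm_deriv_right_le_deriv_boundary' hcont hder
      (B := fun x => L * (Real.exp (-(2 * δ) * t) - Real.exp (-(2 * δ) * x)))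
      (B' := fun x => K * Real.exp (-(2 * δ) * x)) (by simp)
      (fun x _ => (hBd x).continuousAt.continuousWithinAt) (fun x _ => (hBd x).hasDerivWithinAt)
      (fun x hx => hspeed x (ht.trans hx.1) q) (x := s) (right_mem_Icc.2 hts')
    refine h1.trans ?_
    have h2 := Real.exp_pos (-(2 * δ) * s)
    apply mul_le_mul_of_nonneg_left _ hL0
    linarith
  have hlim0 : Tendsto (fun n : ℕ => Real.exp (-(2 * δ) * (n : ℝ))) atTop (𝓝 0) := by
    apply Real.tendsto_exp_atBot.comp
    apply Tendsto.const_mul_atTop_of_neg (by linarith)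
    exact tendsto_natCast_atTop_atTop
  have hcau : ∀ q : S2, ∃ y : EE N, Tendsto (fun n : ℕ => F q (n : ℝ)) atTop (𝓝 y) := by
    intro q
    apply cauchySeq_tendsto_of_complete
    apply cauchySeq_of_le_tendsto_0 (fun n : ℕ => 2 * (L * Real.exp (-(2 * δ) * (n : ℝ))))
    · intro n m N' hn hm
      have h1 := hdist q N' n (Nat.cast_nonneg _) (by exact_mod_cast hn)
      have h2 := hdist q N' m (Nat.cast_nonneg _) (by exact_mod_cast hm)
      rw [dist_eq_norm]
      have e : F q (n : ℝ) - F q (m : ℝ) = (F q (n : ℝ) - F q (N' : ℝ)) - (F q (m : ℝ) - F q (N' : ℝ)) := by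
        abel
      rw [e]
      refine (norm_sub_le _ _).trans ?_
      linarith
    · have h1 := (hlim0.const_mul L).const_mul 2
      simpa using h1
  choose G hG using hcau
  have hGd : ∀ t : ℝ, 0 ≤ t → ∀ q : S2, ‖F q t - G q‖ ≤ L * Real.exp (-(2 * δ) * t) := by
    intro t ht q
    have h1 : Tendsto (fun n : ℕ => ‖F q (n : ℝ) - F q t‖) atTop (𝓝 ‖G q - F q t‖) :=
      ((hG q).sub_const _).norm
    rw [norm_sub_rev]
    refine le_of_tendsto h1 ?_
    filter_upwards [eventually_ge_atTop ⌈t⌉₊] with n hn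
    exact hdist q t n ht (Nat.ceil_le.1 hn)
  refine ⟨G, max C1 L, 2 * δ, ?_, by positivity, ?_⟩
  · have hunif : TendstoUniformly (fun (n : ℕ) (q : S2) => F q (n : ℝ)) G atTop := by
      rw [Metric.tendstoUniformly_iff]
      intro ε hε
      have h1 := (hlim0.const_mul L)
      rw [mul_zero] at h1
      filter_upwards [h1.eventually (gt_mem_nhds hε)] with n hn q
      rw [dist_comm, dist_eq_norm]
      exact (hGd n (Nat.cast_nonneg _) q).trans_lt hn
    refine hunif.continuous (Eventually.of_forall fun n => ?_).frequently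
    have h1 : ContinuousOn (fun z : S2 × ℝ => F z.1 z.2) (univ ×ˢ Ici 0) := hS.smooth.continuousOn
    have h2 : Continuous (fun q : S2 => ((q, (n : ℝ)) : S2 × ℝ)) := continuous_id.prodMk continuous_const
    rw [← continuousOn_univ] at h2 ⊢
    exact h1.comp h2 fun q _ => ⟨mem_univ _, (Nat.cast_nonneg n : (0 : ℝ) ≤ (n : ℝ))⟩
  · intro t ht q
    have hexp := Real.exp_pos (-(2 * δ) * t)
    refine ⟨(hGd t ht q).trans (mul_le_mul_of_nonneg_right (le_max_right _ _) hexp.le), ?_⟩
    refine (hall t ht q).trans ?_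
    have h1 : Real.exp (-4 * t * δ) ≤ Real.exp (-(2 * δ) * t) := by
      apply Real.exp_le_exp.2
      nlinarith [mul_nonneg ht hδ.le]
    exact mul_le_mul (le_max_left _ _) h1 (Real.exp_pos _).le (hC1'.le.trans (le_max_left _ _))

end Helper5.MS
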